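import Pool.Agent.helper5.PR.SpecK
import Pool.Agent.helper85.PG.J

/-! Project pr:, module K-NR: a nonsquare integer is a nonresidue modulo infinitely many primes. -/

set_option autoImplicit false

namespace Pool.Agent.PR

theorem K_NR : K_NR_stmt := by
  intro D hD N hN
  obtain ⟨u, hu, hJ⟩ := Pool.Agent.helper85.PG.exists_neg D hD
  have hD0 : D ≠ 0 := by
    rintro rfl
    exact hD ⟨0, rfl⟩
  have hm0 : 4 * D.natAbs ≠ 0 := by
    have := Int.natAbs_pos.2 hD0
    omega
  have : NeZero (4 * D.natAbs) := ⟨hm0⟩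
  have hcop : Nat.Coprime u (4 * D.natAbs) := by
    refine Nat.Coprime.mul_right ?_ ?_
    · have h2 : Nat.Coprime u (2 ^ 2) := Nat.Coprime.pow_right 2 (Nat.coprime_two_right.2 hu)
      simpa using h2
    · have h3 : jacobiSym D u ≠ 0 := by rw [hJ]; decide
      have h4 : D.gcd u = 1 := by
        by_contra h5
        have hu0 : NeZero u := ⟨fun h => by
          rw [h] at hu
          exact (Nat.not_odd_zero hu)⟩
        exact h3 (jacobiSym.eq_zero_iff_not_coprime.2 h5)
      have h5 : Nat.gcd D.natAbs u = 1 := by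
        have := h4
        rw [Int.gcd_def] at this
        simpa using this
      exact (Nat.coprime_comm.1 h5)
  have hunit : IsUnit ((u : ℕ) : ZMod (4 * D.natAbs)) := (ZMod.isUnit_iff_coprime u _).2 hcop
  obtain ⟨p, hp1, hp, hpm⟩ := Nat.forall_exists_prime_gt_and_eq_mod hunit (N + 2)
  have hp2 : p ≠ 2 := by omega
  have hodd : Odd p := hp.odd_of_ne_two hp2
  refine ⟨p, hp, hp2, fun h => ?_, ?_⟩
  · have := Nat.le_of_dvd (Nat.pos_of_ne_zero hN) h
    omega
  · refine ZMod.nonsquare_of_jacobiSym_eq_neg_one ?_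
    have h1 : p % (4 * D.natAbs) = u % (4 * D.natAbs) :=
      (ZMod.natCast_eq_natCast_iff' p u (4 * D.natAbs)).1 hpm
    rw [jacobiSym.mod_right D hodd, h1, ← jacobiSym.mod_right D hu]
    exact hJ

end Pool.Agent.PR
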