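import Pool.Agent.helper5.PR.SpecX

/-!
# Project pr: (MP_a2a22c_al), module X-UNI: the unitriangular group
-/

set_option autoImplicit false

namespace Pool.Agent.PR

open Matrix
open scoped commutatorElement

/-- `N i j = 0` for `j ≤ i + a` -/
def X_UNI_Na {n : ℕ} (a : ℕ) (N : Matrix (Fin n) (Fin n) ℤ) : Prop :=
  ∀ i j : Fin n, (j : ℕ) ≤ i + a → N i j = 0

theorem X_UNI_mono {n a b : ℕ} (h : a ≤ b) {N : Matrix (Fin n) (Fin n) ℤ} (hN : X_UNI_Na b N) :
    X_UNI_Na a N := fun i j hij => hN i j (by omega)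

theorem X_UNI_add {n a : ℕ} {N M : Matrix (Fin n) (Fin n) ℤ} (hN : X_UNI_Na a N)
    (hM : X_UNI_Na a M) : X_UNI_Na a (N + M) := by
  intro i j hij
  rw [Matrix.add_apply, hN i j hij, hM i j hij, add_zero]

theorem X_UNI_sub {n a : ℕ} {N M : Matrix (Fin n) (Fin n) ℤ} (hN : X_UNI_Na a N)
    (hM : X_UNI_Na a M) : X_UNI_Na a (N - M) := by
  intro i j hij
  rw [Matrix.sub_apply, hN i j hij, hM i j hij, sub_zero]

theorem X_UNI_mul {n a b : ℕ} {N M : Matrix (Fin n) (Fin n) ℤ} (hN : X_UNI_Na a N)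
    (hM : X_UNI_Na b M) : X_UNI_Na (a + b + 1) (N * M) := by
  intro i j hij
  rw [Matrix.mul_apply]
  refine Finset.sum_eq_zero ?_
  intro k _
  by_cases hk : (k : ℕ) ≤ i + a
  · rw [hN i k hk, zero_mul]
  · rw [hM k j (by omega), mul_zero]

theorem X_UNI_inv {n c : ℕ} {A B : Matrix (Fin n) (Fin n) ℤ} (hA : X_UNI_Na c (A - 1))
    (hAB : A * B = 1) : X_UNI_Na c (B - 1) := by
  have key : ∀ (s : ℕ) (i : Fin n), n ≤ i + s → ∀ j : Fin n, (j : ℕ) ≤ i + c → (B - 1) i j = 0 := by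
    intro s
    induction s with
    | zero =>
      intro i hi
      exact absurd i.2 (by omega)
    | succ s ih =>
      intro i hi j hij
      have h1 : (B - 1) = (1 - A) * (B - 1) + (1 - A) := by
        have : (1 - A) * (B - 1) + (1 - A) = B - A * B := by noncomm_ring
        rw [this, hAB]
      rw [h1, Matrix.add_apply]
      have h2 : (1 - A) i j = 0 := by
        have h3 := hA i j hij
        rw [Matrix.sub_apply] at h3 ⊢
        linarith
      rw [h2, add_zero, Matrix.mul_apply]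
      refine Finset.sum_eq_zero ?_
      intro k _
      by_cases hk : (k : ℕ) ≤ i + c
      · have h3 := hA i k hk
        have h4 : (1 - A) i k = 0 := by
          rw [Matrix.sub_apply] at h3 ⊢
          linarith
        rw [h4, zero_mul]
      · rw [ih k (by omega) j (by omega), mul_zero]
  intro i j hij
  exact key n i (by omega) j hij

theorem X_UNI_mul_inv {n : ℕ} (A : SLZ n) :
    (A : Matrix (Fin n) (Fin n) ℤ) * ((A⁻¹ : SLZ n) : Matrix (Fin n) (Fin n) ℤ) = 1 :=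
  congrArg Subtype.val (mul_inv_cancel A)

/-- the terms of the lower central series -/
def X_UNI_U (n c : ℕ) : Subgroup (SLZ n) where
  carrier := {A | X_UNI_Na c ((A : Matrix (Fin n) (Fin n) ℤ) - 1)}
  mul_mem' := by
    intro A B hA hB
    change X_UNI_Na c ((A : Matrix (Fin n) (Fin n) ℤ) * (B : Matrix (Fin n) (Fin n) ℤ) - 1)
    have h1 : (A : Matrix (Fin n) (Fin n) ℤ) * (B : Matrix (Fin n) (Fin n) ℤ) - 1 =
        ((A : Matrix (Fin n) (Fin n) ℤ) - 1) * ((B : Matrix (Fin n) (Fin n) ℤ) - 1) +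
        ((A : Matrix (Fin n) (Fin n) ℤ) - 1) + ((B : Matrix (Fin n) (Fin n) ℤ) - 1) := by
      noncomm_ring
    rw [h1]
    exact X_UNI_add (X_UNI_add (X_UNI_mono (by omega) (X_UNI_mul hA hB)) hA) hB
  one_mem' := by
    change X_UNI_Na c ((1 : Matrix (Fin n) (Fin n) ℤ) - 1)
    rw [sub_self]
    intro i j _
    rfl
  inv_mem' := by
    intro A hA
    change X_UNI_Na c (((A⁻¹ : SLZ n) : Matrix (Fin n) (Fin n) ℤ) - 1)
    refine X_UNI_inv hA ?_
    exact X_UNI_mul_inv A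

theorem X_UNI_mem {n c : ℕ} {A : SLZ n} :
    A ∈ X_UNI_U n c ↔ X_UNI_Na c ((A : Matrix (Fin n) (Fin n) ℤ) - 1) := Iff.rfl

theorem X_UNI_comm {n c : ℕ} {A B : SLZ n} (hA : A ∈ X_UNI_U n c) (hB : B ∈ X_UNI_U n 0) :
    ⁅A, B⁆ ∈ X_UNI_U n (c + 1) := by
  rw [X_UNI_mem, commutatorElement_def]
  change X_UNI_Na (c + 1) ((A : Matrix (Fin n) (Fin n) ℤ) * (B : Matrix (Fin n) (Fin n) ℤ) *
    ((A⁻¹ : SLZ n) : Matrix (Fin n) (Fin n) ℤ) * ((B⁻¹ : SLZ n) : Matrix (Fin n) (Fin n) ℤ) - 1)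
  have haa := X_UNI_mul_inv A
  have hbb := X_UNI_mul_inv B
  have h5 : X_UNI_Na 0 (((A⁻¹ : SLZ n) : Matrix (Fin n) (Fin n) ℤ) *
      ((B⁻¹ : SLZ n) : Matrix (Fin n) (Fin n) ℤ) - 1) := by
    have h5 : A⁻¹ * B⁻¹ ∈ X_UNI_U n 0 := by
      refine (X_UNI_U n 0).mul_mem ((X_UNI_U n 0).inv_mem ?_) ((X_UNI_U n 0).inv_mem hB)
      exact X_UNI_mono (Nat.zero_le c) hA
    exact h5
  rw [X_UNI_mem] at hA hB
  generalize (A : Matrix (Fin n) (Fin n) ℤ) = a at *
  generalize (B : Matrix (Fin n) (Fin n) ℤ) = b at *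
  generalize ((A⁻¹ : SLZ n) : Matrix (Fin n) (Fin n) ℤ) = a' at *
  generalize ((B⁻¹ : SLZ n) : Matrix (Fin n) (Fin n) ℤ) = b' at *
  have h1 : a * b * a' * b' - 1 = ((a - 1) * (b - 1) - (b - 1) * (a - 1)) +
      ((a - 1) * (b - 1) - (b - 1) * (a - 1)) * (a' * b' - 1) := by
    have h2 : b * a * (a' * b') = 1 := by
      calc b * a * (a' * b') = b * (a * a') * b' := by noncomm_ring
        _ = 1 := by rw [haa, mul_one, hbb]
    calc a * b * a' * b' - 1 = a * b * a' * b' - b * a * (a' * b') := by rw [h2]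
      _ = _ := by noncomm_ring
  rw [h1]
  have h3 : X_UNI_Na (c + 1) ((a - 1) * (b - 1) - (b - 1) * (a - 1)) := by
    refine X_UNI_sub ?_ ?_
    · exact X_UNI_mono (by omega) (X_UNI_mul hA hB)
    · exact X_UNI_mono (by omega) (X_UNI_mul hB hA)
  refine X_UNI_add h3 ?_
  exact X_UNI_mono (by omega) (X_UNI_mul h3 h5)

theorem X_UNI_lcs_le (n c : ℕ) : (X_UNI_U n 0).lowerCentralSeries c ≤ X_UNI_U n c := by
  induction c with
  | zero => exact le_rfl
  | succ c ih =>
    rw [Subgroup.lowerCentralSeries_succ, Subgroup.commutator_le]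
    intro A hA B hB
    exact X_UNI_comm (ih hA) hB

theorem X_UNI_top (n : ℕ) : X_UNI_U n n = ⊥ := by
  rw [eq_bot_iff]
  intro A hA
  rw [Subgroup.mem_bot]
  apply Subtype.ext
  have h : (A : Matrix (Fin n) (Fin n) ℤ) - 1 = 0 := by
    ext i j
    exact hA i j (by omega)
  rw [sub_eq_zero] at h
  rw [h]
  rfl

theorem X_UNI_el_mem {n : ℕ} (c : ℕ) (i j : Fin n) (hij : i ≠ j) (h : (i : ℕ) + c < j) (a : ℤ) :
    el i j hij a ∈ X_UNI_U n c := by
  intro k l hkl
  change (Matrix.transvection i j a - 1) k l = 0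
  unfold Matrix.transvection
  rw [add_sub_cancel_left, Matrix.single_apply]
  refine if_neg ?_
  rintro ⟨rfl, rfl⟩
  omega

theorem X_UNI_el_comm {n : ℕ} (i j k : Fin n) (hij : i ≠ j) (hjk : j ≠ k) (hik : i ≠ k) :
    ⁅el i j hij 1, el j k hjk 1⁆ = el i k hik 1 := by
  have hinv : ∀ (p q : Fin n) (hpq : p ≠ q) (a : ℤ), (el p q hpq a)⁻¹ = el p q hpq (-a) := by
    intro p q hpq a
    rw [inv_eq_iff_mul_eq_one]
    apply Subtype.ext
    change Matrix.transvection p q a * Matrix.transvection p q (-a) = 1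
    rw [Matrix.transvection_mul_transvection_same _ _ hpq, add_neg_cancel, Matrix.transvection_zero]
  rw [commutatorElement_def, hinv, hinv]
  apply Subtype.ext
  change Matrix.transvection i j 1 * Matrix.transvection j k 1 * Matrix.transvection i j (-1) *
    Matrix.transvection j k (-1) = Matrix.transvection i k (1 : ℤ)
  unfold Matrix.transvection
  simp only [mul_add, add_mul, mul_one, one_mul, Matrix.single_mul_single_same,
    Matrix.single_mul_single_of_ne _ _ _ _ hij.symm, Matrix.single_mul_single_of_ne _ _ _ _ hjk.symm,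
    Matrix.single_mul_single_of_ne _ _ _ _ hik.symm, zero_mul, mul_zero, add_zero]
  have e1 : ∀ (p q : Fin n), Matrix.single p q (-1 : ℤ) = - Matrix.single p q 1 := by
    intro p q
    ext r s
    simp only [Matrix.single_apply, Matrix.neg_apply]
    split_ifs <;> simp
  simp only [e1]
  abel

theorem X_UNI_lcs_ge {n : ℕ} (hn : 3 ≤ n) (c : ℕ) (hc : c + 1 < n) :
    el (⟨0, by omega⟩ : Fin n) ⟨c + 1, hc⟩ (by intro h; exact absurd (congrArg Fin.val h) (by simp)) 1 ∈
      (X_UNI_U n 0).lowerCentralSeries c := by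
  induction c with
  | zero => exact X_UNI_el_mem 0 _ _ _ (by simp) 1
  | succ c ih =>
    rw [Subgroup.lowerCentralSeries_succ]
    rw [← X_UNI_el_comm (⟨0, by omega⟩ : Fin n) ⟨c + 1, by omega⟩ ⟨c + 1 + 1, hc⟩
      (by intro h; exact absurd (congrArg Fin.val h) (by simp))
      (by intro h; exact absurd (congrArg Fin.val h) (by simp))
      (by intro h; exact absurd (congrArg Fin.val h) (by simp))]
    refine Subgroup.commutator_mem_commutator (ih (by omega)) ?_
    exact X_UNI_el_mem 0 _ _ _ (by simp) 1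

theorem X_UNI_pow {n : ℕ} (A : SLZ n) (m : ℕ) :
    ((A ^ m : SLZ n) : Matrix (Fin n) (Fin n) ℤ) = (A : Matrix (Fin n) (Fin n) ℤ) ^ m := by
  induction m with
  | zero => rfl
  | succ m ih => rw [pow_succ, pow_succ, ← ih]; rfl

theorem X_UNI_tf {n : ℕ} (A : SLZ n) (k : ℕ) (hk : 0 < k) (hAk : A ^ k = 1)
    (c : ℕ) (hA : A ∈ X_UNI_U n c) : A ∈ X_UNI_U n (c + 1) := by
  set a : Matrix (Fin n) (Fin n) ℤ := (A : Matrix (Fin n) (Fin n) ℤ) with ha
  have h1 : ∀ m : ℕ, X_UNI_Na (2 * c + 1) ((a ^ m - 1) - (m : ℤ) • (a - 1)) := by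
    intro m
    induction m with
    | zero =>
      intro i j _
      simp
    | succ m ih =>
      have h2 : (a ^ (m + 1) - 1) - ((m + 1 : ℕ) : ℤ) • (a - 1) =
          (a ^ m - 1) * (a - 1) + ((a ^ m - 1) - (m : ℤ) • (a - 1)) := by
        rw [pow_succ]
        push_cast
        rw [add_smul, one_smul]
        noncomm_ring
      rw [h2]
      refine X_UNI_add ?_ ih
      have h3 : A ^ m ∈ X_UNI_U n c := (X_UNI_U n c).pow_mem hA m
      rw [X_UNI_mem, X_UNI_pow] at h3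
      exact X_UNI_mono (by omega) (X_UNI_mul h3 hA)
  intro i j hij
  have h4 := h1 k i j (by omega)
  have h5 : a ^ k = 1 := by
    rw [ha, ← X_UNI_pow, hAk]
    rfl
  rw [h5, sub_self, zero_sub, Matrix.neg_apply, Matrix.smul_apply, smul_eq_mul, neg_eq_zero] at h4
  rcases mul_eq_zero.mp h4 with h6 | h6
  · exact absurd h6 (by exact_mod_cast hk.ne')
  · exact h6

theorem X_UNI : X_UNI_stmt := by
  intro n hn
  refine ⟨X_UNI_U n 0, ⟨?_, ?_, ?_⟩, ?_⟩
  · rw [Subgroup.isNilpotent_iff_lowerCentralSeries]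
    refine ⟨n, ?_⟩
    rw [eq_bot_iff, ← X_UNI_top n]
    exact X_UNI_lcs_le n n
  · intro g hg k hk hgk
    apply hg
    have h1 : (g : SLZ n) ^ k = 1 := by
      have := congrArg Subtype.val hgk
      simpa using this
    have h2 : ∀ c, (g : SLZ n) ∈ X_UNI_U n c := by
      intro c
      induction c with
      | zero => exact g.2
      | succ c ih => exact X_UNI_tf _ k hk h1 c ih
    have h3 := h2 n
    rw [X_UNI_top, Subgroup.mem_bot] at h3
    exact Subtype.ext h3
  · intro hbot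
    have h1 := X_UNI_lcs_ge hn (n - 2) (by omega)
    rw [← Subgroup.top_subtype_lowerCentralSeries, hbot, Subgroup.map_bot, Subgroup.mem_bot] at h1
    have h2 := congrArg (fun A : SLZ n => (A : Matrix (Fin n) (Fin n) ℤ) ⟨0, by omega⟩
      ⟨n - 2 + 1, by omega⟩) h1
    have h3 : (⟨0, by omega⟩ : Fin n) ≠ ⟨n - 2 + 1, by omega⟩ := by
      intro h
      exact absurd (congrArg Fin.val h) (by simp)
    change Matrix.transvection (⟨0, by omega⟩ : Fin n) ⟨n - 2 + 1, by omega⟩ (1 : ℤ)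
      ⟨0, by omega⟩ ⟨n - 2 + 1, by omega⟩ = (1 : Matrix (Fin n) (Fin n) ℤ) ⟨0, by omega⟩
      ⟨n - 2 + 1, by omega⟩ at h2
    unfold Matrix.transvection at h2
    rw [Matrix.add_apply, Matrix.single_apply_same, Matrix.one_apply_ne h3] at h2
    norm_num at h2
  · rw [eq_bot_iff]
    rintro A ⟨hA, hc⟩
    have hc' : A ∈ Subgroup.center (SLZ n) := hc
    obtain ⟨r, -, hr⟩ := Matrix.SpecialLinearGroup.mem_center_iff.mp hc'
    have h0 : ((A : Matrix (Fin n) (Fin n) ℤ) - 1) ⟨0, by omega⟩ ⟨0, by omega⟩ = 0 :=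
      hA _ _ (by simp)
    rw [← hr, Matrix.sub_apply, Matrix.one_apply_eq, Matrix.scalar_apply,
      Matrix.diagonal_apply_eq] at h0
    have hr1 : r = 1 := by linarith
    rw [Subgroup.mem_bot]
    apply Subtype.ext
    rw [← hr, hr1]
    simp

end Pool.Agent.PR

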