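import Pool.Agent.helper5.PR.SpecY

/-!
# Project pr: (MP_a2a22c_al), module Y-PULL: pull back along a surjection with finite kernel
-/

set_option autoImplicit false

namespace Pool.Agent.PR

theorem Y_PULL_transfer {k : ℕ} {G P : Type} [Group G] [Group P] (ψ : G →* P)
    (hψ : Function.Injective ψ) (hr : ψ.range.FiniteIndex) (hP : NonEmb k P) : NonEmb k G := by
  obtain ⟨hfg, hnil, htf, hne⟩ := hP
  refine ⟨?_, ?_, ?_, ?_⟩
  · have := hfg
    have := hr
    have h1 : Group.FG ψ.range := inferInstance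
    exact Group.fg_of_surjective (f := (MonoidHom.ofInjective hψ).symm.toMonoidHom)
      (MonoidHom.ofInjective hψ).symm.surjective
  · have := hnil
    have : Group.IsNilpotent ψ.range := inferInstance
    exact Group.nilpotent_of_mulEquiv (MonoidHom.ofInjective hψ).symm
  · intro g hg m hm h
    refine htf (ψ g) ?_ m hm ?_
    · intro h1
      exact hg (hψ (by rw [h1, map_one]))
    · rw [← map_pow, h, map_one]
  · intro H hH E _ _ f hf
    have h1 : (H.map ψ).FiniteIndex := by
      constructor
      rw [Subgroup.index_map, (MonoidHom.ker_eq_bot_iff ψ).mpr hψ, sup_bot_eq]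
      exact mul_ne_zero hH.index_ne_zero hr.index_ne_zero
    refine hne (H.map ψ) h1 E (f.comp (H.equivMapOfInjective ψ hψ).symm.toMonoidHom) ?_
    exact hf.comp (H.equivMapOfInjective ψ hψ).symm.injective

theorem Y_PULL : Y_PULL_stmt := by
  intro Λ L _ _ π hπ hker hRF k P hP
  classical
  have hch : ∀ g : π.ker, ∃ H : Subgroup Λ, H.index ≠ 0 ∧ ((g : Λ) ≠ 1 → (g : Λ) ∉ H) := by
    intro g
    by_cases hg : (g : Λ) = 1
    · exact ⟨⊤, by simp, fun h => absurd hg h⟩
    · obtain ⟨H, hH, hgH⟩ := hRF g hg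
      exact ⟨H, hH, fun _ => hgH⟩
  choose H hH hgH using hch
  have := hker
  have hWfi : (⨅ g : π.ker, H g).FiniteIndex :=
    Subgroup.finiteIndex_iInf (fun g => ⟨hH g⟩)
  set W : Subgroup Λ := ⨅ g : π.ker, H g with hW
  have hWker : ∀ x ∈ W, π x = 1 → x = 1 := by
    intro x hx hx1
    by_contra hne
    have h1 : x ∈ H ⟨x, hx1⟩ := by
      rw [hW, Subgroup.mem_iInf] at hx
      exact hx _
    exact hgH ⟨x, hx1⟩ hne h1
  let P' : Subgroup Λ := P.comap π ⊓ W
  let ψ : P' →* P := (π.comp P'.subtype).codRestrict P (fun x => x.2.1)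
  have hψv : ∀ x : P', ((ψ x : P) : L) = π (x : Λ) := fun x => rfl
  have hψ : Function.Injective ψ := by
    rw [injective_iff_map_eq_one]
    intro x hx
    have h1 : π (x : Λ) = 1 := by
      rw [← hψv, hx]
      rfl
    exact Subtype.ext (hWker _ x.2.2 h1)
  have hr : ψ.range.FiniteIndex := by
    have h1 : (W.map π).FiniteIndex := by
      constructor
      intro h
      have h2 := Subgroup.index_map_dvd W hπ
      rw [h] at h2
      exact hWfi.index_ne_zero (zero_dvd_iff.mp h2)
    have h2 : ((W.map π).subgroupOf P).FiniteIndex := inferInstance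
    have h3 : (W.map π).subgroupOf P ≤ ψ.range := by
      intro y hy
      rw [Subgroup.mem_subgroupOf] at hy
      obtain ⟨x, hxW, hxy⟩ := hy
      have hxP : x ∈ P' := by
        refine ⟨?_, hxW⟩
        change π x ∈ P
        rw [hxy]
        exact y.2
      exact ⟨⟨x, hxP⟩, Subtype.ext hxy⟩
    exact Subgroup.finiteIndex_of_le h3
  exact ⟨P', Y_PULL_transfer ψ hψ hr hP⟩

end Pool.Agent.PR

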